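import Pool.Agent.N984.DI.Fin
import Pool.Agent.N984.DI.SPD
import Pool.Agent.N574.DI.CFD
import Pool.Agent.N335.DI.CPM
import Pool.Agent.N738.DI.CPP
import Pool.Agent.N371.DI.TOPK
import Pool.Agent.N499.DI.MAJ
import Pool.Agent.N928.DI.DETS
import Pool.Agent.N297.DI.LIMB
import Pool.Agent.N136.DI.OPM
import Pool.Agent.N999.DI.OPC
import Pool.Agent.N555.DI.NRM
import Pool.Agent.N530.DI.CXY
import Pool.Agent.N727.DI.AS

/-!
# A determinant inequality: `det (A^2 + |AB|^p) ≥ det (A^2 + A^p B^p)` for `0 ≤ p ≤ 2`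

Proof: log-majorization of the eigenvalues of `A^(p/2-1) B^p A^(p/2-1)` by those of
`A⁻¹ |AB|^p A⁻¹`, from an operator inequality for the compound matrices.
-/

set_option autoImplicit false

namespace Pool.Agent.N984.Known.DeterminantInequality

open Matrix
open scoped ComplexOrder

/-- The power `X^q` of a positive semidefinite matrix by the spectral calculus
(`Real.rpow` on the eigenvalues; `0^0 = 1`, so `X^0 = 1`). -/
noncomputable def power {n : ℕ} (X : Matrix (Fin n) (Fin n) ℂ) (q : ℝ) :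
    Matrix (Fin n) (Fin n) ℂ := cfc (fun x : ℝ => x ^ q) X

/-- The absolute value `|X| = (X^* X)^(1/2)`. -/
noncomputable def absolute {n : ℕ} (X : Matrix (Fin n) (Fin n) ℂ) :
    Matrix (Fin n) (Fin n) ℂ := power (Xᴴ * X) (1 / 2)

/-- For all positive semidefinite `n × n` matrices `A, B` and all real `0 ≤ p ≤ 2`:
`0 ≤ det (A^2 + A^p B^p) ≤ det (A^2 + |AB|^p)` (the order of `ℂ`: both are real). -/
theorem result (n : ℕ) (A B : Matrix (Fin n) (Fin n) ℂ) (hA : A.PosSemidef)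
    (hB : B.PosSemidef) (p : ℝ) (hp0 : 0 ≤ p) (hp2 : p ≤ 2) :
    0 ≤ (A ^ 2 + power A p * power B p).det ∧
    (A ^ 2 + power A p * power B p).det ≤ (A ^ 2 + power (absolute (A * B)) p).det :=
  by
  have hF : Pool.Agent.N984.DI.CFD := Pool.Agent.N574.DI.t_CFD
  have hS : Pool.Agent.N984.DI.SPD := Pool.Agent.N984.DI.t_SPD
  have hC : Pool.Agent.N984.DI.CPM := Pool.Agent.N335.DI.t_CPM
  have hCP : Pool.Agent.N984.DI.CPP := Pool.Agent.N738.DI.t_CPP hF hS hC
  have hO : Pool.Agent.N984.DI.OP := Pool.Agent.N136.DI.OPM.t_OPM hF hS Pool.Agent.N999.DI.t_OPC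
  have hP : Pool.Agent.N984.DI.PD := Pool.Agent.N984.DI.t_PDA hS hCP
    (Pool.Agent.N371.DI.t_TOPK hC) Pool.Agent.N499.DI.t_MAJ (Pool.Agent.N555.DI.t_NRM hF hS hO)
    (Pool.Agent.N530.DI.t_CXY hC hCP) (Pool.Agent.N928.DI.t_DETS hF hS)
  exact Pool.Agent.N984.DI.t_FIN hP (Pool.Agent.N297.DI.t_LIMB hF hS)
    (Pool.Agent.N727.DI2.t_SINA hF hS) (Pool.Agent.N727.DI2.t_ABS hF hS) n A B hA hB p hp0 hp2

end Pool.Agent.N984.Known.DeterminantInequality
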